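import Mathlib

/-!
# The converse of the stepping-up lemma under GCH

If `c` is a colouring of the `n`-element subsets of `κ` and `e z : z → κ` is injective for every
`z < κ⁺ = 2 ^ κ`, then the `(n+1)`-element subset with largest element `z` and remaining part `a` is
given the colour `c (e z [a])`. A homogeneous set of order type `η + 1`, where `η` is a cardinal,
has a largest element `t`, and `e t` maps the part below `t` to a homogeneous subset of `κ` with
`η` elements.
-/

set_option autoImplicit false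

open Cardinal Set

namespace Pool.Agent.Results.MP_2e9b9b_lc.StepUpConverse

universe u

/-- The partition relation `α → (η k; k ∈ Γ)ⁿ` for ordinals `α` and `η k`: for every colouring `c`
of the `n`-element subsets of (the well-ordered set of the ordinals below) `α` with colours in `Γ`
there are a colour `k` and a subset `H` of order type `η k` all of whose `n`-element subsets have
the colour `k`. -/
def Arrow (α : Ordinal.{u}) (n : ℕ) {Γ : Type u} (η : Γ → Ordinal.{u}) : Prop :=
  ∀ c : {a : Finset α.ToType // a.card = n} → Γ,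
    ∃ (k : Γ) (H : Set α.ToType), Nonempty ((η k).ToType ≃o H) ∧
      ∀ a : {a : Finset α.ToType // a.card = n}, (a.1 : Set α.ToType) ⊆ H → c a = k

/-- A set of cardinality at least `η` in a well-order has a subset of order type `η`. -/
theorem exists_subset_type {K : Type u} [LinearOrder K] [WellFoundedLT K] (η : Cardinal.{u})
    (S : Set K) (hS : η ≤ #S) : ∃ H ⊆ S, Nonempty (η.ord.ToType ≃o H) := by
  have h1 : η.ord ≤ Ordinal.type (fun x y : S => x < y) := by
    rw [ord_le]
    simpa using hS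
  rw [← Ordinal.type_toType η.ord, Ordinal.type_le_iff'] at h1
  obtain ⟨f⟩ := h1
  let g : η.ord.ToType ↪o K :=
    (OrderEmbedding.ofStrictMono (fun x => (f x : S)) fun a b h => f.map_rel_iff.2 h).trans
      (OrderEmbedding.subtype _)
  refine ⟨range g, ?_, ⟨g.orderIso⟩⟩
  rintro _ ⟨x, rfl⟩
  exact (f x).2

/-- Assume GCH. For every infinite cardinal `κ`, every `n ≥ 2`, every set `Γ` of colours with
`2 ≤ |Γ| < κ` and all cardinals `η k` with `n < η k ≤ κ`: if `κ → (η k)ⁿ` fails, then
`2 ^ κ → (η k + 1)ⁿ⁺¹` fails, where `η k + 1` is the ordinal successor. -/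
theorem result (_gch : ∀ ν : Cardinal.{u}, ℵ₀ ≤ ν → (2 : Cardinal.{u}) ^ ν = Order.succ ν)
    (κ : Cardinal.{u}) (hκ : ℵ₀ ≤ κ) (n : ℕ) (_hn : 2 ≤ n) (Γ : Type u) (_h2 : 2 ≤ #Γ)
    (_hΓ : #Γ < κ) (η : Γ → Cardinal.{u}) (_hη : ∀ k, (n : Cardinal.{u}) < η k ∧ η k ≤ κ)
    (h : ¬ Arrow κ.ord n fun k => (η k).ord) :
    ¬ Arrow ((2 : Cardinal.{u}) ^ κ).ord (n + 1) fun k => (η k).ord + 1 := by
  classical
  intro hA
  apply h
  intro c
  have hK : #κ.ord.ToType = κ := mk_ord_toType κ
  have hL : #((2 : Cardinal.{u}) ^ κ).ord.ToType = Order.succ κ := by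
    rw [mk_ord_toType, _gch κ hκ]
  have he : ∀ z : ((2 : Cardinal.{u}) ^ κ).ord.ToType, Nonempty (Iio z ↪ κ.ord.ToType) := by
    intro z
    have h1 : #(Iio z) < Order.succ κ := by
      have := mk_Iio_lt z (by simp)
      rwa [hL] at this
    rw [← Cardinal.le_def, hK]
    exact Order.lt_succ_iff.1 h1
  have he' : ∀ z : ((2 : Cardinal.{u}) ^ κ).ord.ToType,
      ∃ e : ((2 : Cardinal.{u}) ^ κ).ord.ToType → κ.ord.ToType, InjOn e (Iio z) := by
    intro z
    obtain ⟨e⟩ := he z
    have hne : Nonempty κ.ord.ToType := by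
      rw [← mk_ne_zero_iff, hK]
      exact (aleph0_pos.trans_le hκ).ne'
    refine ⟨fun x => if hx : x < z then e ⟨x, hx⟩ else hne.some, ?_⟩
    intro x hx y hy hxy
    simp only [mem_Iio.1 hx, mem_Iio.1 hy, dif_pos] at hxy
    exact congrArg Subtype.val (e.injective hxy)
  choose e he using he'
  -- the colouring
  have hmax : ∀ a : {a : Finset ((2 : Cardinal.{u}) ^ κ).ord.ToType // a.card = n + 1},
      ∃ z ∈ a.1, (∀ x ∈ a.1, x ≤ z) ∧ ((a.1.erase z).image (e z)).card = n := by
    intro a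
    have hne : a.1.Nonempty := by
      rw [← Finset.card_pos, a.2]
      exact Nat.succ_pos n
    refine ⟨a.1.max' hne, a.1.max'_mem hne, fun x hx => a.1.le_max' x hx, ?_⟩
    rw [Finset.card_image_of_injOn, Finset.card_erase_of_mem (a.1.max'_mem hne), a.2]
    · rfl
    · intro x hx y hy hxy
      have hx' := Finset.mem_erase.1 (Finset.mem_coe.1 hx)
      have hy' := Finset.mem_erase.1 (Finset.mem_coe.1 hy)
      exact he _ (lt_of_le_of_ne (a.1.le_max' x hx'.2) hx'.1)
        (lt_of_le_of_ne (a.1.le_max' y hy'.2) hy'.1) hxy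
  choose z hz1 hz2 hz3 using hmax
  obtain ⟨k, H, ⟨g⟩, hH⟩ := hA fun a => c ⟨(a.1.erase (z a)).image (e (z a)), hz3 a⟩
  -- the largest element of `H`
  obtain ⟨t, ht⟩ : ∃ t : ((η k).ord + 1).ToType, ∀ x, x ≤ t := by
    refine ⟨Ordinal.ToType.mk ⟨(η k).ord, by simp⟩, fun x => ?_⟩
    obtain ⟨y, rfl⟩ := Ordinal.ToType.mk.surjective x
    rw [OrderIso.le_iff_le]
    change y.1 ≤ (η k).ord
    exact Order.lt_add_one_iff.1 (mem_Iio.1 y.2)
  have hcard : η k ≤ #(Iio t) := by
    have h1 : #(univ : Set ((η k).ord + 1).ToType) = (η k).ord.card + 1 := by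
      rw [mk_univ, Cardinal.mk_toType, Ordinal.card_add, Ordinal.card_one]
    have h2 : (univ : Set ((η k).ord + 1).ToType) = insert t (Iio t) := by
      ext x
      simp only [mem_univ, mem_insert_iff, mem_Iio, true_iff]
      exact (ht x).eq_or_lt
    rw [h2, mk_insert (by simp), card_ord] at h1
    exact (add_one_inj.1 h1).ge
  let T := (g t : ((2 : Cardinal.{u}) ^ κ).ord.ToType)
  let S : Set κ.ord.ToType := range fun x : Iio t => e T (g x.1)
  have hlt : ∀ x : Iio t, (g x.1 : ((2 : Cardinal.{u}) ^ κ).ord.ToType) < T := fun x =>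
    g.lt_iff_lt.2 x.2
  have hSinj : Function.Injective fun x : Iio t => e T (g x.1) := by
    intro x y hxy
    exact Subtype.ext (g.injective (Subtype.ext (he T (hlt x) (hlt y) hxy)))
  have hS : η k ≤ #S := by
    rw [mk_range_eq _ hSinj]
    exact hcard
  obtain ⟨H', hH'S, hH'⟩ := exists_subset_type (η k) S hS
  refine ⟨k, H', hH', ?_⟩
  rintro ⟨a, ha⟩ haH
  -- pull `a` back
  have hpre : ∀ y ∈ a, ∃ x : Iio t, e T (g x.1) = y := fun y hy => hH'S (haH hy)
  have hne : Nonempty (Iio t) := by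
    rw [← mk_ne_zero_iff]
    intro h0
    rw [h0] at hcard
    exact absurd (_hη k).1 (not_lt.2 (hcard.trans zero_le))
  choose! p hp using hpre
  let b : Finset ((2 : Cardinal.{u}) ^ κ).ord.ToType :=
    a.image fun y => (g (p y).1 : ((2 : Cardinal.{u}) ^ κ).ord.ToType)
  have hbinj : InjOn (fun y => (g (p y).1 : ((2 : Cardinal.{u}) ^ κ).ord.ToType)) a := by
    intro y hy y' hy' hyy
    have h1 : e T (g (p y).1) = e T (g (p y').1) := congrArg (e T) hyy
    rwa [hp y hy, hp y' hy'] at h1
  have hbT : ∀ x ∈ b, x < T := by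
    intro x hx
    obtain ⟨y, hy, rfl⟩ := Finset.mem_image.1 hx
    exact hlt (p y)
  have hTb : T ∉ b := fun h => lt_irrefl _ (hbT T h)
  have hbcard : (insert T b).card = n + 1 := by
    rw [Finset.card_insert_of_notMem hTb, Finset.card_image_of_injOn hbinj, ha]
  have hsub : ((insert T b : Finset _) : Set ((2 : Cardinal.{u}) ^ κ).ord.ToType) ⊆ H := by
    intro x hx
    rcases Finset.mem_insert.1 (Finset.mem_coe.1 hx) with rfl | hx
    · exact (g t).2
    · obtain ⟨y, hy, rfl⟩ := Finset.mem_image.1 hx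
      exact (g (p y).1).2
  have hcol := hH ⟨insert T b, hbcard⟩ hsub
  have hzT : z ⟨insert T b, hbcard⟩ = T := by
    refine le_antisymm ?_ (hz2 _ T (Finset.mem_insert_self T b))
    rcases Finset.mem_insert.1 (hz1 ⟨insert T b, hbcard⟩) with h | h
    · exact h.le
    · exact (hbT _ h).le
  have himg : ((insert T b).erase (z ⟨insert T b, hbcard⟩)).image
      (e (z ⟨insert T b, hbcard⟩)) = a := by
    rw [hzT, Finset.erase_insert hTb]
    ext y
    simp only [b, Finset.mem_image]
    constructor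
    · rintro ⟨x, ⟨y', hy', rfl⟩, rfl⟩
      rw [hp y' hy']
      exact hy'
    · intro hy
      exact ⟨_, ⟨y, hy, rfl⟩, hp y hy⟩
  rw [← hcol]
  congr 1
  exact Subtype.ext himg.symm

end Pool.Agent.Results.MP_2e9b9b_lc.StepUpConverse
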